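import Pool.Agent.Q130.SA.Arb2

set_option autoImplicit false

/-!
# Strong arboricity is not bounded by twice the arboricity

For every `k ≥ 2` there is a finite simple graph of arboricity at most `k` and strong arboricity at
least `3 k - 3`; in particular (`k = 4`) the inequality `ζ(G) ≤ 2 arb(G)` fails.
-/

namespace Pool.Agent.Results.MP_96bd24_co.TwiceArboricityFails

open Q130.SA

/-- **Theorem.** The inequality `ζ(G) ≤ 2 arb(G)` is false for some finite simple graph; more
precisely, for every `k ≥ 2` there is a finite simple graph with arboricity at most `k` and strong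
arboricity at least `3 k - 3`. -/
theorem result : (¬ ∀ (V : Type) (_ : Finite V) (G : SimpleGraph V), zeta G ≤ 2 * arb G) ∧
    ∀ k : ℕ, 2 ≤ k → ∃ (V : Type) (_ : Finite V) (G : SimpleGraph V), arb G ≤ k ∧ 3 * k ≤ zeta G + 3 := by
  have main : ∀ k : ℕ, 2 ≤ k → ∃ (V : Type) (_ : Finite V) (G : SimpleGraph V),
      arb G ≤ k ∧ 3 * k ≤ zeta G + 3 := by
    intro k hk
    obtain ⟨m, rfl⟩ : ∃ m, k = m + 1 := ⟨k - 1, by omega⟩
    refine ⟨V3 (m + 1) ((m + 1 + (2 * m - 1)) ^ (m + 1) + 1) (2 * m - 1), inferInstance,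
      G3 (m + 1) ((m + 1 + (2 * m - 1)) ^ (m + 1) + 1) (2 * m - 1), ?_, ?_⟩
    · exact Nat.sInf_le (hasW3 m _ (by omega))
    · have := lower3_zeta (k := m + 1) (M := (m + 1 + (2 * m - 1)) ^ (m + 1) + 1) (b := 2 * m - 1)
        (Nat.lt_succ_self _)
      omega
  refine ⟨?_, main⟩
  intro h
  obtain ⟨V, hV, G, h1, h2⟩ := main 4 (by norm_num)
  have := h V hV G
  omega

end Pool.Agent.Results.MP_96bd24_co.TwiceArboricityFails
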